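import Pool.Agent.LeoK.CountStmts

/-!
# Module LTL of the squad leok: uniform lower bound for the number of points of a coset of a lattice
-/

set_option autoImplicit false

open NumberField IsDedekindDomain Module MeasureTheory Filter Topology
open scoped Pointwise ENNReal

namespace Pool.Agent.LeoK.H5

open Pool.Agent.LeoK

section
variable {E : Type} [NormedAddCommGroup E] [NormedSpace ℝ E] [FiniteDimensional ℝ E]
  [MeasurableSpace E] [BorelSpace E] (μ : Measure E) [μ.IsAddHaarMeasure]
  {ι : Type} [Fintype ι]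

/-- covering radius in any norm. -/
theorem cover (hvor : VorStmt) (ρ V : ℝ) (hρ : 0 < ρ) : ∃ R : ℝ, 0 ≤ R ∧ ∀ b : Basis ι ℝ E,
    (∀ y ∈ Submodule.span ℤ (Set.range b), y ≠ 0 → ρ ≤ ‖y‖) →
    (μ (ZSpan.fundamentalDomain b)).toReal ≤ V →
    ∀ x : E, ∃ y ∈ Submodule.span ℤ (Set.range b), ‖x - y‖ ≤ R := by
  set e : E ≃L[ℝ] EuclideanSpace ℝ (Fin (finrank ℝ E)) := toEuclidean with he
  set A : ℝ := ‖(e.symm : EuclideanSpace ℝ (Fin (finrank ℝ E)) →L[ℝ] E)‖ + 1 with hA
  have hA0 : 0 < A := by positivity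
  have hAle : ∀ y, ‖e.symm y‖ ≤ A * ‖y‖ := by
    intro y
    refine ((e.symm : EuclideanSpace ℝ (Fin (finrank ℝ E)) →L[ℝ] E).le_opNorm y).trans ?_
    exact mul_le_mul_of_nonneg_right (by rw [hA]; linarith) (norm_nonneg _)
  set ν : Measure (EuclideanSpace ℝ (Fin (finrank ℝ E))) := Measure.map e μ with hν
  have hνH : ν.IsAddHaarMeasure := e.isAddHaarMeasure_map μ
  set κ : NNReal := Measure.addHaarScalarFactor
    (volume : Measure (EuclideanSpace ℝ (Fin (finrank ℝ E)))) ν with hκ
  obtain ⟨R, hR⟩ := hvor (finrank ℝ E) (ρ / A) ((κ : ℝ) * V) (by positivity)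
  refine ⟨A * max R 0, by positivity, fun b hb hV x => ?_⟩
  set σ : ι ≃ Fin (finrank ℝ E) := Fintype.equivFinOfCardEq (finrank_eq_card_basis b).symm with hσ
  set b' : Basis (Fin (finrank ℝ E)) ℝ (EuclideanSpace ℝ (Fin (finrank ℝ E))) :=
    (b.map e.toLinearEquiv).reindex σ with hb'
  have hrepr : ∀ y i, b'.repr y i = b.repr (e.symm y) (σ.symm i) := by
    intro y i
    rw [hb']
    simp
  have hspan : ∀ y, y ∈ Submodule.span ℤ (Set.range b') ↔
      e.symm y ∈ Submodule.span ℤ (Set.range b) := by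
    intro y
    rw [Basis.mem_span_iff_repr_mem ℤ b', Basis.mem_span_iff_repr_mem ℤ b]
    constructor
    · intro h i
      have := h (σ i)
      rw [hrepr, Equiv.symm_apply_apply] at this
      exact this
    · intro h i
      rw [hrepr]
      exact h _
  have hFD : e ⁻¹' (ZSpan.fundamentalDomain b') = ZSpan.fundamentalDomain b := by
    ext y
    rw [Set.mem_preimage, ZSpan.mem_fundamentalDomain, ZSpan.mem_fundamentalDomain]
    constructor
    · intro h i
      have := h (σ i)
      rw [hrepr, Equiv.symm_apply_apply, ContinuousLinearEquiv.symm_apply_apply] at this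
      exact this
    · intro h i
      rw [hrepr, ContinuousLinearEquiv.symm_apply_apply]
      exact h _
  have hvol : (volume (ZSpan.fundamentalDomain b')).toReal ≤ (κ : ℝ) * V := by
    have hc : IsCompact (closure (ZSpan.fundamentalDomain b')) :=
      (ZSpan.fundamentalDomain_isBounded b').isCompact_closure
    have h1 := Measure.measure_isAddInvariant_eq_smul_of_isCompact_closure
      (volume : Measure (EuclideanSpace ℝ (Fin (finrank ℝ E)))) ν hc
    have h2 : ν (ZSpan.fundamentalDomain b') = μ (ZSpan.fundamentalDomain b) := by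
      show (Measure.map e μ) (ZSpan.fundamentalDomain b') = μ (ZSpan.fundamentalDomain b)
      rw [Measure.map_apply e.continuous.measurable (ZSpan.fundamentalDomain_measurableSet b'),
        hFD]
    rw [h1, h2, ENNReal.smul_def, smul_eq_mul, ENNReal.toReal_mul, ENNReal.coe_toReal]
    exact mul_le_mul_of_nonneg_left hV κ.2
  obtain ⟨y, hy, hxy⟩ := hR b' (by
    intro y hy hy0
    have h1 := hb (e.symm y) ((hspan y).1 hy) (by
      intro h
      refine hy0 ?_
      rw [← e.apply_symm_apply y, h, map_zero])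
    rw [div_le_iff₀ hA0]
    linarith [hAle y]) hvol (e x)
  refine ⟨e.symm y, (hspan y).1 hy, ?_⟩
  have h1 : x - e.symm y = e.symm (e x - y) := by
    rw [map_sub, ContinuousLinearEquiv.symm_apply_apply]
  rw [h1]
  refine (hAle _).trans ?_
  exact mul_le_mul_of_nonneg_left (hxy.trans (le_max_left _ _)) hA0.le

/-- averaging over the fundamental domain. -/
theorem average (b : Basis ι ℝ E) (A : Set E) (hA : MeasurableSet A) (n : ℕ)
    (h : ∀ (x : E) (S : Finset E), (∀ y ∈ S, y ∈ Submodule.span ℤ (Set.range b) ∧ x + y ∈ A) →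
      S.card ≤ n) :
    μ A ≤ n * μ (ZSpan.fundamentalDomain b) := by
  classical
  have hfd := ZSpan.isAddFundamentalDomain' b μ
  haveI : Countable (Submodule.span ℤ (Set.range b)).toAddSubgroup :=
    inferInstanceAs (Countable (Submodule.span ℤ (Set.range b)))
  rw [hfd.measure_eq_tsum A]
  have hF : MeasurableSet (ZSpan.fundamentalDomain b) := ZSpan.fundamentalDomain_measurableSet b
  have h1 : ∀ l : (Submodule.span ℤ (Set.range b)).toAddSubgroup, μ ((l +ᵥ A) ∩ ZSpan.fundamentalDomain b) =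
      ∫⁻ x in ZSpan.fundamentalDomain b, (l +ᵥ A).indicator 1 x ∂μ := by
    intro l
    rw [lintegral_indicator_one (hA.const_vadd l), Measure.restrict_apply (hA.const_vadd l)]
  simp_rw [h1]
  rw [← lintegral_tsum (fun l => (measurable_one.indicator (hA.const_vadd l)).aemeasurable)]
  have h2 : ∀ x : E, (∑' l : (Submodule.span ℤ (Set.range b)).toAddSubgroup, (l +ᵥ A).indicator (1 : E → ℝ≥0∞) x) ≤
      n := by
    intro x
    rw [ENNReal.tsum_eq_iSup_sum]
    refine iSup_le fun S => ?_
    have h3 : ∑ l ∈ S, (l +ᵥ A).indicator (1 : E → ℝ≥0∞) x =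
        ((S.filter fun l => x ∈ (l +ᵥ A)).card : ℝ≥0∞) := by
      rw [Finset.card_filter]
      push_cast
      refine Finset.sum_congr rfl fun l _ => ?_
      by_cases hx : x ∈ (l +ᵥ A)
      · rw [Set.indicator_of_mem hx, if_pos hx]
        rfl
      · rw [Set.indicator_of_notMem hx, if_neg hx]
    rw [h3]
    have h4 : (S.filter fun l => x ∈ (l +ᵥ A)).card ≤ n := by
      have hinj : Function.Injective
          (fun l : (Submodule.span ℤ (Set.range b)).toAddSubgroup => (-(l : E) : E)) := by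
        intro l l' hl
        exact Subtype.ext (neg_injective hl)
      rw [← Finset.card_image_of_injective _ hinj]
      refine h x _ fun y hy => ?_
      rw [Finset.mem_image] at hy
      obtain ⟨l, hl, rfl⟩ := hy
      rw [Finset.mem_filter] at hl
      refine ⟨neg_mem (show (l : E) ∈ Submodule.span ℤ (Set.range b) from l.2), ?_⟩
      have h5 := hl.2
      rw [Set.mem_vadd_set_iff_neg_vadd_mem] at h5
      have h6 : -l +ᵥ x = x + -(l : E) := by
        rw [AddSubgroup.vadd_def]
        simp [add_comm]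
      rw [← h6]
      exact h5
    exact_mod_cast h4
  calc ∫⁻ x in ZSpan.fundamentalDomain b,
        (∑' l : (Submodule.span ℤ (Set.range b)).toAddSubgroup, (l +ᵥ A).indicator (1 : E → ℝ≥0∞) x) ∂μ ≤
        ∫⁻ _ in ZSpan.fundamentalDomain b, (n : ℝ≥0∞) ∂μ := lintegral_mono h2
    _ = n * μ (ZSpan.fundamentalDomain b) := by
        rw [lintegral_const, Measure.restrict_apply MeasurableSet.univ, Set.univ_inter]

end

/-- LTL. -/
theorem ltl (hvor : VorStmt) : LtlStmt := by
  intro E _ _ _ _ _ μ _ ι _ U hU hUb ρ V ε hρ hε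
  obtain ⟨R, hR0, hR⟩ := cover (ι := ι) μ hvor ρ V hρ
  have hUf : μ U ≠ ⊤ := hUb.measure_lt_top.ne
  -- a compact subset and its neighbourhood
  obtain ⟨K, hKU, hK, hKv⟩ : ∃ K ⊆ U, IsCompact K ∧ (μ U).toReal - ε ≤ (μ K).toReal := by
    rcases le_or_gt (μ U).toReal ε with hc | hc
    · refine ⟨∅, Set.empty_subset _, isCompact_empty, ?_⟩
      rw [measure_empty, ENNReal.toReal_zero]
      linarith
    · have h0 : ENNReal.ofReal ((μ U).toReal - ε) < μ U := by
        rw [ENNReal.ofReal_lt_iff_lt_toReal (by linarith) hUf]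
        linarith
      obtain ⟨K, hKU, hK, hKv⟩ := hU.exists_lt_isCompact h0
      refine ⟨K, hKU, hK, ?_⟩
      have := ENNReal.toReal_mono hK.measure_lt_top.ne hKv.le
      rwa [ENNReal.toReal_ofReal (by linarith)] at this
  obtain ⟨δ, hδ, hδU⟩ := hK.exists_thickening_subset_open hU hKU
  refine ⟨R / δ + 1, by positivity, fun t ht b hb hV x₀ => ?_⟩
  have ht0 : 0 < t := lt_of_lt_of_le (by positivity) ht
  have htR : R / t < δ := by
    rw [div_lt_iff₀ ht0]
    have h1 : R < δ * (R / δ + 1) := by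
      rw [mul_add, mul_div_cancel₀ _ hδ.ne']
      linarith
    exact lt_of_lt_of_le h1 (mul_le_mul_of_nonneg_left ht hδ.le)
  have hfin : {y : E | y ∈ Submodule.span ℤ (Set.range b) ∧ t⁻¹ • (x₀ + y) ∈ U}.Finite := by
    have hbd : Bornology.IsBounded {y : E | t⁻¹ • (x₀ + y) ∈ U} := by
      obtain ⟨M, hM⟩ := hUb.exists_norm_le
      rw [isBounded_iff_forall_norm_le]
      refine ⟨t * M + ‖x₀‖, fun y hy => ?_⟩
      have h1 := hM _ hy
      rw [norm_smul, norm_inv, Real.norm_eq_abs, abs_of_pos ht0, inv_mul_le_iff₀ ht0] at h1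
      have h2 : ‖y‖ ≤ ‖x₀ + y‖ + ‖x₀‖ := by
        have := norm_sub_le (x₀ + y) x₀
        rwa [add_sub_cancel_left] at this
      linarith
    refine (ZSpan.setFinite_inter b hbd).subset ?_
    rintro y ⟨h1, h2⟩
    exact ⟨h2, h1⟩
  refine ⟨hfin, ?_⟩
  set n := {y : E | y ∈ Submodule.span ℤ (Set.range b) ∧ t⁻¹ • (x₀ + y) ∈ U}.ncard with hn
  have hav : μ (t • K) ≤ n * μ (ZSpan.fundamentalDomain b) := by
    refine average μ b (t • K) ((hK.smul t).measurableSet) n fun x S hS => ?_
    obtain ⟨l, hl, hxl⟩ := hR b hb hV (x - x₀)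
    classical
    rw [← Finset.card_image_of_injective S (add_left_injective l), hn, ← Set.ncard_coe_finset]
    refine Set.ncard_le_ncard ?_ hfin
    intro z hz
    rw [Finset.mem_coe, Finset.mem_image] at hz
    obtain ⟨y, hy, rfl⟩ := hz
    obtain ⟨h1, h2⟩ := hS y hy
    refine ⟨add_mem h1 hl, hδU ?_⟩
    obtain ⟨k, hk, hkx⟩ := h2
    rw [Metric.mem_thickening_iff]
    refine ⟨k, hk, ?_⟩
    have hkx : t • k = x + y := hkx
    have h3 : k = t⁻¹ • (x + y) := by
      rw [← hkx, smul_smul, inv_mul_cancel₀ ht0.ne', one_smul]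
    rw [h3, dist_eq_norm, ← smul_sub, norm_smul, norm_inv, Real.norm_eq_abs, abs_of_pos ht0]
    have h4 : x₀ + (y + l) - (x + y) = -(x - x₀ - l) := by abel
    rw [h4, norm_neg, ← div_eq_inv_mul]
    exact lt_of_le_of_lt (div_le_div_of_nonneg_right hxl ht0.le) htR
  rw [Measure.addHaar_smul, abs_of_pos (by positivity)] at hav
  have hFf : μ (ZSpan.fundamentalDomain b) ≠ ⊤ :=
    (ZSpan.fundamentalDomain_isBounded b).measure_lt_top.ne
  have h5 := ENNReal.toReal_mono (ENNReal.mul_ne_top (ENNReal.natCast_ne_top n) hFf) hav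
  rw [ENNReal.toReal_mul, ENNReal.toReal_mul, ENNReal.toReal_ofReal (by positivity),
    ENNReal.toReal_natCast] at h5
  calc ((μ U).toReal - ε) * t ^ finrank ℝ E ≤ (μ K).toReal * t ^ finrank ℝ E :=
        mul_le_mul_of_nonneg_right hKv (by positivity)
    _ = t ^ finrank ℝ E * (μ K).toReal := mul_comm _ _
    _ ≤ _ := h5

end Pool.Agent.LeoK.H5
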